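import Pool.Agent.R525.MDR.Star

/-!
# The minimal-domination reconfiguration graph is a tree only for a star plus isolated vertices
-/

namespace Pool.Agent.Results.MP_746574_co.TreeIffStar

open SimpleGraph Pool.Agent.R525.MDR

universe u

/-- For every finite nonempty graph `G`, the reconfiguration graph `R G` of its minimal dominating
sets is a tree if and only if `G` is isomorphic to the disjoint union of an edgeless graph on
`n ≥ 0` vertices and a star `K_{1,m}`, `m ≥ 0`; also, `R G` is acyclic if and only if `G` is of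
this form. -/
theorem result (V : Type u) [Finite V] [Nonempty V] (G : SimpleGraph V) :
    ((R G).IsTree ↔ ∃ n m : ℕ,
      Nonempty (G ≃g ((⊥ : SimpleGraph (Fin n)) ⊕g completeBipartiteGraph (Fin 1) (Fin m)))) ∧
    ((R G).IsAcyclic ↔ ∃ n m : ℕ,
      Nonempty (G ≃g ((⊥ : SimpleGraph (Fin n)) ⊕g completeBipartiteGraph (Fin 1) (Fin m)))) := by
  have h1 : (R G).IsAcyclic → ∃ n m : ℕ,
      Nonempty (G ≃g ((⊥ : SimpleGraph (Fin n)) ⊕g
        completeBipartiteGraph (Fin 1) (Fin m))) := by
    intro h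
    obtain ⟨c, hc⟩ := star_of_acyclic h
    exact iso_of_star hc
  have h2 : (∃ n m : ℕ, Nonempty (G ≃g ((⊥ : SimpleGraph (Fin n)) ⊕g
        completeBipartiteGraph (Fin 1) (Fin m)))) → (R G).IsTree := by
    rintro ⟨n, m, ⟨φ⟩⟩
    obtain ⟨c, hc⟩ := star_of_iso φ
    exact ⟨connected_of_star hc, acyclic_of_star hc⟩
  exact ⟨⟨fun h => h1 h.IsAcyclic, h2⟩, ⟨h1, fun h => (h2 h).IsAcyclic⟩⟩

end Pool.Agent.Results.MP_746574_co.TreeIffStar
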